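import Pool.Agent.Y360.CH.Count

/-!
# Translates in coded norm sets
-/

set_option autoImplicit false

namespace Pool.Agent.Y360.CH

open Finset

/-- the abstract counting lemma: `code` is a Freiman isomorphism of order 2 of the set of pairs
`(x, Nm x)` into the integers -/
theorem translates_le {K : Type} [Field K] {m : ℕ} (hm : 0 < m) (φ : K →+* K)
    (code : K → ℤ) (e : K → ℕ) (ζ : K) (hζ : ζ ≠ 0)
    (he : ∀ x : K, x ≠ 0 → ∏ j : Fin m, φ^[j] x = ζ ^ e x)
    (hF : ∀ u v w z : K, code u + code v = code w + code z → u + v = w + z ∧ e u + e v = e w + e z)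
    (X L : Finset ℤ) (hX : X.card = m + 1)
    (hA : ∀ x ∈ X, ∀ k ∈ L, ∃ y : K, y ≠ 0 ∧ code y = x + k) : L.card ≤ m.factorial := by
  classical
  have hcinj : Function.Injective code := by
    intro u w h
    have := (hF u 0 w 0 (by rw [h])).1
    exact add_right_cancel this
  rcases L.eq_empty_or_nonempty with rfl | ⟨k0, hk0⟩
  · simp
  obtain ⟨x0, hx0⟩ := Finset.card_pos.1 (show 0 < X.card by omega)
  choose! y hy0 hy using hA
  have key : ∀ i ∈ X, ∀ k ∈ L, y x0 k + y i k0 = y i k + y x0 k0 ∧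
      e (y x0 k) + e (y i k0) = e (y i k) + e (y x0 k0) := by
    intro i hi k hk
    apply hF
    rw [hy x0 hx0 k hk, hy i hi k0 hk0, hy i hi k hk, hy x0 hx0 k0 hk0]
    ring
  set S := L.image (fun k => y x0 k) with hS
  have hSc : S.card = L.card := by
    rw [hS]
    apply Finset.card_image_of_injOn
    intro k hk k' hk' h
    have h1 : code (y x0 k) = code (y x0 k') := by
      show code ((fun k => y x0 k) k) = code ((fun k => y x0 k) k')
      rw [h]
    rw [hy x0 hx0 k hk, hy x0 hx0 k' hk'] at h1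
    exact add_left_cancel h1
  rw [← hSc]
  have hzp : ∀ n : ℕ, ζ ^ n ≠ 0 := fun n => pow_ne_zero n hζ
  refine norm_count hm φ (I := {x // x ∈ X}) univ (by simp [hX])
    (fun i => y i k0 - y x0 k0) ?_ (fun i => ζ ^ e (y i k0) / ζ ^ e (y x0 k0)) S
    (fun s => ζ ^ e s) ?_
  · intro i i' h
    have h1 : y i k0 = y i' k0 := sub_left_injective h
    have h2 : code (y i k0) = code (y i' k0) := by rw [h1]
    rw [hy i i.2 k0 hk0, hy i' i'.2 k0 hk0] at h2
    exact Subtype.ext (add_right_cancel h2)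
  · intro s hs i _
    rw [hS, Finset.mem_image] at hs
    obtain ⟨k, hk, rfl⟩ := hs
    obtain ⟨h1, h2⟩ := key i i.2 k hk
    have h3 : y x0 k + (y i k0 - y x0 k0) = y i k := by
      rw [← add_sub_assoc, h1, add_sub_cancel_right]
    rw [h3, he _ (hy0 i i.2 k hk), div_mul_eq_mul_div, eq_div_iff (hzp _), ← pow_add, ← pow_add,
      ← h2, add_comm]

theorem digits_lt {B : ℤ} (hB : 0 < B) : ∀ (m : ℕ) (d : Fin m → ℤ),
    (∀ j, 0 ≤ d j ∧ d j < B) → 0 ≤ ∑ j : Fin m, d j * B ^ (j : ℕ) ∧
      ∑ j : Fin m, d j * B ^ (j : ℕ) < B ^ m := by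
  intro m
  induction m with
  | zero => intro d _; simp
  | succ m ih =>
    intro d hd
    rw [Fin.sum_univ_castSucc]
    obtain ⟨h1, h2⟩ := ih (fun j => d j.castSucc) (fun j => hd _)
    simp only [Fin.val_castSucc, Fin.val_last] at *
    have h3 := hd (Fin.last m)
    have h4 : (0 : ℤ) < B ^ m := pow_pos hB m
    constructor
    · have := mul_nonneg h3.1 h4.le
      linarith
    · have h5 : d (Fin.last m) ≤ B - 1 := by omega
      have h6 : d (Fin.last m) * B ^ m ≤ (B - 1) * B ^ m := mul_le_mul_of_nonneg_right h5 h4.le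
      rw [pow_succ]
      nlinarith

end Pool.Agent.Y360.CH
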