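import Pool.Agent.W834.NG.Main

/-!
# At most `m!` translates: the system of `m + 1` norm equations of degree `m`
-/

set_option autoImplicit false

namespace Pool.Agent.Y360.CH

open Finset Pool.Agent.W834.NG

/-- a system of `m + 1` norm equations of degree `m` has at most `m!` solutions -/
theorem norm_count {K : Type*} [Field K] {m : ℕ} (hm : 0 < m) (φ : K →+* K) {I : Type*}
    [DecidableEq I] (T : Finset I) (hT : m + 1 ≤ T.card)
    (c : I → K) (hc : Function.Injective c) (a : I → K) (S : Finset K)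
    (b : K → K) (hS : ∀ s ∈ S, ∀ i ∈ T, ∏ j : Fin m, φ^[j] (s + c i) = a i * b s) :
    S.card ≤ m.factorial := by
  obtain ⟨n, rfl⟩ : ∃ n, m = n + 1 := ⟨m - 1, by omega⟩
  refine (card_le_F hm φ c a T S b hS).trans ?_
  refine F_triv _ n T (fun k => αα_inj φ (n + 1) c hc T k) (by omega) univ ∅ (disjoint_empty_right _) ?_
  simp

/-- the base `B` expansion with digits in `[0, B)` is unique -/
theorem digits_unique {B : ℤ} (hB : 0 < B) : ∀ (m : ℕ) (d d' : Fin m → ℤ) (e e' : ℤ),
    (∀ j, 0 ≤ d j ∧ d j < B) → (∀ j, 0 ≤ d' j ∧ d' j < B) →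
    ∑ j : Fin m, d j * B ^ (j : ℕ) + B ^ m * e = ∑ j : Fin m, d' j * B ^ (j : ℕ) + B ^ m * e' →
    d = d' ∧ e = e' := by
  intro m
  induction m with
  | zero =>
    intro d d' e e' _ _ h
    refine ⟨Subsingleton.elim _ _, ?_⟩
    simpa using h
  | succ m ih =>
    intro d d' e e' hd hd' h
    rw [Fin.sum_univ_succ, Fin.sum_univ_succ] at h
    have h1 : ∀ f : Fin (m + 1) → ℤ, ∑ j : Fin m, f j.succ * B ^ (j.succ : ℕ) =
        B * ∑ j : Fin m, f j.succ * B ^ (j : ℕ) := by
      intro f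
      rw [Finset.mul_sum]
      refine Finset.sum_congr rfl fun j _ => ?_
      rw [Fin.val_succ, pow_succ]
      ring
    rw [h1, h1] at h
    simp only [Fin.val_zero, pow_zero, mul_one] at h
    have h2 : d 0 + B * (∑ j : Fin m, d j.succ * B ^ (j : ℕ) + B ^ m * e) =
        d' 0 + B * (∑ j : Fin m, d' j.succ * B ^ (j : ℕ) + B ^ m * e') := by
      rw [pow_succ] at h
      linarith
    have h3 : d 0 = d' 0 := by
      have e1 : (d 0 + B * (∑ j : Fin m, d j.succ * B ^ (j : ℕ) + B ^ m * e)) % B = d 0 := by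
        rw [Int.add_mul_emod_self_left]
        exact Int.emod_eq_of_lt (hd 0).1 (hd 0).2
      have e2 : (d' 0 + B * (∑ j : Fin m, d' j.succ * B ^ (j : ℕ) + B ^ m * e')) % B = d' 0 := by
        rw [Int.add_mul_emod_self_left]
        exact Int.emod_eq_of_lt (hd' 0).1 (hd' 0).2
      rw [← e1, h2, e2]
    have h4 : ∑ j : Fin m, d j.succ * B ^ (j : ℕ) + B ^ m * e =
        ∑ j : Fin m, d' j.succ * B ^ (j : ℕ) + B ^ m * e' := by
      rw [h3] at h2
      exact mul_left_cancel₀ hB.ne' (add_left_cancel h2)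
    obtain ⟨h5, h6⟩ := ih (fun j => d j.succ) (fun j => d' j.succ) e e' (fun j => hd _)
      (fun j => hd' _) h4
    refine ⟨?_, h6⟩
    funext j
    refine Fin.cases h3 (fun j => congrFun h5 j) j

end Pool.Agent.Y360.CH
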