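import Pool.Agent.Y360.CH.Code

/-!
# The coded norm set of a finite field
-/

set_option autoImplicit false

namespace Pool.Agent.Y360.CH

open Finset

/-- the discrete logarithm of the norm -/
theorem exists_log (p : ℕ) [Fact p.Prime] (K : Type) [Field K] [Finite K] [CharP K p] (m : ℕ)
    (hm : 0 < m) (hK : ∀ x : K, x ^ p ^ m = x) :
    ∃ (ζ : K) (e : K → ℕ), ζ ≠ 0 ∧ (∀ x, e x < p - 1) ∧
      ∀ x : K, x ≠ 0 → ∏ j : Fin m, (frobenius K p)^[j] x = ζ ^ e x := by
  classical
  have hp : p.Prime := Fact.out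
  have hp1 : 0 < p - 1 := Nat.sub_pos_of_lt hp.one_lt
  have : NeZero (p - 1) := ⟨hp1.ne'⟩
  obtain ⟨g, hg⟩ := IsCyclic.exists_generator (α := rootsOfUnity (p - 1) K)
  have hord : orderOf g ≤ p - 1 := by
    apply orderOf_le_of_pow_eq_one hp1
    ext
    have := (mem_rootsOfUnity' _ _).1 g.2
    simpa using this
  have hordpos : 0 < orderOf g := orderOf_pos_iff.2 (isOfFinOrder_of_finite g)
  have hiter : ∀ (j : ℕ) (x : K), (frobenius K p)^[j] x = x ^ p ^ j := by
    intro j x
    rw [iterate_frobenius]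
  have hN : ∀ x : K, x ≠ 0 → (∏ j : Fin m, (frobenius K p)^[j] x) ^ (p - 1) = 1 := by
    intro x hx
    have hne : (∏ j : Fin m, (frobenius K p)^[j] x) ≠ 0 := by
      rw [Finset.prod_ne_zero_iff]
      intro j _
      rw [hiter]
      exact pow_ne_zero _ hx
    have h1 : (∏ j : Fin m, (frobenius K p)^[j] x) ^ p = ∏ j : Fin m, (frobenius K p)^[j] x := by
      obtain ⟨n, rfl⟩ : ∃ n, m = n + 1 := ⟨m - 1, by omega⟩
      rw [← Finset.prod_pow]
      rw [Fin.prod_univ_castSucc, Fin.prod_univ_succ (fun j : Fin (n + 1) => (frobenius K p)^[j] x)]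
      rw [mul_comm]
      congr 1
      · simp only [hiter, Fin.val_last, Fin.val_zero, pow_zero, pow_one]
        rw [← pow_mul, ← pow_succ]
        exact hK x
      · refine Finset.prod_congr rfl fun j _ => ?_
        simp only [hiter, Fin.val_castSucc, Fin.val_succ]
        rw [← pow_mul, ← pow_succ]
    have h2 : (∏ j : Fin m, (frobenius K p)^[j] x) * (∏ j : Fin m, (frobenius K p)^[j] x) ^ (p - 1)
        = (∏ j : Fin m, (frobenius K p)^[j] x) * 1 := by
      rw [← pow_succ', Nat.sub_add_cancel hp.one_lt.le, h1, mul_one]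
    exact mul_left_cancel₀ hne h2
  have hex : ∀ x : K, x ≠ 0 → ∃ n : ℕ, n < p - 1 ∧
      ∏ j : Fin m, (frobenius K p)^[j] x = ((g : Kˣ) : K) ^ n := by
    intro x hx
    set y := ∏ j : Fin m, (frobenius K p)^[j] x with hy
    have hyp := hN x hx
    rw [← hy] at hyp
    let u : rootsOfUnity (p - 1) K := rootsOfUnity.mkOfPowEq y hyp
    have hu : ((u : Kˣ) : K) = y := rootsOfUnity.coe_mkOfPowEq hyp
    obtain ⟨n, hn⟩ := (mem_powers_iff_mem_zpowers (x := g) (y := u)).2 (hg u)
    refine ⟨n % orderOf g, (Nat.mod_lt _ hordpos).trans_le hord, ?_⟩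
    have h3 : g ^ (n % orderOf g) = u := by
      rw [pow_mod_orderOf]
      exact hn
    rw [← hu, ← h3, Subgroup.coe_pow, Units.val_pow_eq_pow_val]
  choose! e he using hex
  refine ⟨((g : Kˣ) : K), fun x => if x = 0 then 0 else e x, Units.ne_zero _, ?_, ?_⟩
  · intro x
    by_cases hx : x = 0
    · simp only [hx, if_true]; exact hp1
    · simp only [hx, if_false]; exact (he x hx).1
  · intro x hx
    simp only [hx, if_false]
    exact (he x hx).2

/-- For every prime `p` there is a set of `p ^ m - 1` integers in `[1, (2 p) ^ m (p - 1)]` that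
contains at most `m!` translates of every set with `m + 1` elements. -/
theorem exists_set (p : ℕ) [Fact p.Prime] (m : ℕ) (hm : 0 < m) :
    ∃ A : Finset ℤ, (∀ a ∈ A, 1 ≤ a ∧ a ≤ (2 * p) ^ m * ((p : ℤ) - 1)) ∧ A.card = p ^ m - 1 ∧
      ∀ X L : Finset ℤ, X.card = m + 1 → (∀ x ∈ X, ∀ k ∈ L, x + k ∈ A) → L.card ≤ m.factorial := by
  classical
  have hp : p.Prime := Fact.out
  let K := GaloisField p m
  have hm' : m ≠ 0 := hm.ne'
  have : Finite K := inferInstanceAs (Finite (GaloisField p m))
  letI : Fintype K := Fintype.ofFinite K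
  have hcard : Fintype.card K = p ^ m := by
    rw [← Nat.card_eq_fintype_card]
    exact GaloisField.card p m hm'
  have hKpow : ∀ x : K, x ^ p ^ m = x := by
    intro x
    rw [← hcard]
    exact FiniteField.pow_card x
  obtain ⟨ζ, e, hζ, he1, he2⟩ := exists_log p K m hm hKpow
  let b : Module.Basis (Fin m) (ZMod p) K := Module.finBasisOfFinrankEq (ZMod p) K
    (GaloisField.finrank p hm')
  have hp0 : (0 : ℤ) < p := by exact_mod_cast hp.pos
  have hB : (0 : ℤ) < 2 * p := by linarith
  let dig : K → Fin m → ℤ := fun x j => ((b.repr x j).val : ℤ)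
  have hdig : ∀ x j, 0 ≤ dig x j ∧ dig x j < p := by
    intro x j
    refine ⟨Int.natCast_nonneg _, ?_⟩
    have := ZMod.val_lt (b.repr x j)
    show ((b.repr x j).val : ℤ) < p
    exact_mod_cast this
  let code : K → ℤ := fun x => ∑ j : Fin m, dig x j * (2 * (p : ℤ)) ^ (j : ℕ) +
    (2 * (p : ℤ)) ^ m * (e x : ℤ)
  have hF : ∀ u v w z : K, code u + code v = code w + code z →
      u + v = w + z ∧ e u + e v = e w + e z := by
    intro u v w z h
    have h1 : ∑ j : Fin m, (dig u j + dig v j) * (2 * (p : ℤ)) ^ (j : ℕ) +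
        (2 * (p : ℤ)) ^ m * ((e u : ℤ) + e v) = ∑ j : Fin m, (dig w j + dig z j) *
        (2 * (p : ℤ)) ^ (j : ℕ) + (2 * (p : ℤ)) ^ m * ((e w : ℤ) + e z) := by
      simp only [code] at h
      simp only [add_mul, mul_add, Finset.sum_add_distrib]
      linarith
    obtain ⟨h2, h3⟩ := digits_unique hB m (fun j => dig u j + dig v j)
      (fun j => dig w j + dig z j) _ _
      (fun j => ⟨by have := hdig u j; have := hdig v j; linarith,
        by have := hdig u j; have := hdig v j; linarith⟩)
      (fun j => ⟨by have := hdig w j; have := hdig z j; linarith,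
        by have := hdig w j; have := hdig z j; linarith⟩) h1
    refine ⟨?_, by exact_mod_cast h3⟩
    apply b.repr.injective
    ext j
    rw [map_add, map_add, Finsupp.add_apply, Finsupp.add_apply]
    have h4 : (((b.repr u j).val : ℤ) + ((b.repr v j).val : ℤ)) =
        ((b.repr w j).val : ℤ) + ((b.repr z j).val : ℤ) := congrFun h2 j
    have h5 := congrArg (fun t : ℤ => (t : ZMod p)) h4
    simpa using h5
  have hcinj : Function.Injective code := by
    intro u w h
    have := (hF u 0 w 0 (by rw [h])).1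
    exact add_right_cancel this
  refine ⟨(univ.filter fun x : K => x ≠ 0).image (fun x => 1 + code x), ?_, ?_, ?_⟩
  · intro a ha
    rw [Finset.mem_image] at ha
    obtain ⟨x, -, rfl⟩ := ha
    obtain ⟨h1, h2⟩ := digits_lt hB m (dig x) (fun j => ⟨(hdig x j).1, by
      have := (hdig x j).2; linarith⟩)
    have h3 : (0 : ℤ) < (2 * p) ^ m := pow_pos hB m
    have h4 : (0 : ℤ) ≤ e x := Int.natCast_nonneg _
    have h5 : (e x : ℤ) ≤ p - 2 := by
      have := he1 x
      have h6 := hp.two_le
      omega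
    have h7 : (2 * (p : ℤ)) ^ m * (e x : ℤ) ≤ (2 * (p : ℤ)) ^ m * (p - 2) :=
      mul_le_mul_of_nonneg_left h5 h3.le
    have h8 : (0 : ℤ) ≤ (2 * (p : ℤ)) ^ m * (e x : ℤ) := mul_nonneg h3.le h4
    simp only [code]
    constructor
    · linarith
    · have h9 : (2 * (p : ℤ)) ^ m * ((p : ℤ) - 1) = (2 * (p : ℤ)) ^ m * (p - 2) +
          (2 * (p : ℤ)) ^ m := by ring
      rw [h9]
      linarith
  · rw [Finset.card_image_of_injective _ (fun x y h => hcinj (add_left_cancel h))]
    rw [Finset.filter_ne' univ (0 : K), Finset.card_erase_of_mem (mem_univ _), Finset.card_univ,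
      hcard]
  · intro X L hX hA
    refine translates_le hm (frobenius K p) (fun x => 1 + code x) e ζ hζ he2 ?_ X L hX ?_
    · intro u v w z h
      exact hF u v w z (by linarith)
    · intro x hx k hk
      have := hA x hx k hk
      rw [Finset.mem_image] at this
      obtain ⟨y, hy, h⟩ := this
      exact ⟨y, (Finset.mem_filter.1 hy).2, h⟩

end Pool.Agent.Y360.CH
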