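import Pool.Agent.Y360.CH.Field

/-!
# Optimal order
-/

set_option autoImplicit false

namespace Pool.Agent.Y360.CH

open Finset

theorem optimal (m : ℕ) (hm : 0 < m) :
    ∃ c : ℝ, 0 < c ∧ ∃ n₀ : ℕ, ∀ n : ℕ, n₀ ≤ n → ∃ A : Finset ℤ, (∀ a ∈ A, 1 ≤ a ∧ a ≤ (n : ℤ)) ∧
      (∀ X L : Finset ℤ, X.card = m + 1 → (∀ x ∈ X, ∀ k ∈ L, x + k ∈ A) →
        L.card ≤ m.factorial) ∧
      c * (n : ℝ) ^ (1 - 1 / ((m + 1 : ℕ) : ℝ)) ≤ A.card := by
  classical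
  set α : ℝ := 1 - 1 / ((m + 1 : ℕ) : ℝ) with hα
  have hm1 : (0 : ℝ) < ((m + 1 : ℕ) : ℝ) := by positivity
  have hαm : ((m + 1 : ℕ) : ℝ) * α = m := by
    rw [hα]
    field_simp
    push_cast
    ring
  have hα0 : 0 ≤ α := by
    by_contra h
    push Not at h
    have := mul_neg_of_pos_of_neg hm1 h
    rw [hαm] at this
    exact absurd this (not_lt.2 (Nat.cast_nonneg m))
  refine ⟨1 / 2 * (1 / 2 ^ (3 * m + 2)) ^ α, by positivity, 2 ^ (2 * m + 1), ?_⟩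
  intro n hn
  -- the largest `N` with `2 ^ (2 m + 1) N ^ (m + 1) ≤ n`
  set P : ℕ → Prop := fun N => 2 ^ (2 * m + 1) * N ^ (m + 1) ≤ n with hP
  set N := Nat.findGreatest P n with hN
  have hP1 : P 1 := by simpa [hP] using hn
  have h1n : 1 ≤ n := le_trans Nat.one_le_two_pow hn
  have hN1 : 1 ≤ N := Nat.le_findGreatest h1n hP1
  have hPN : P N := Nat.findGreatest_spec h1n hP1
  have hPN' : ¬ P (N + 1) := by
    intro h
    have h2 : N + 1 ≤ n := by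
      have h3 : 2 ^ (2 * m + 1) * (N + 1) ^ (m + 1) ≤ n := h
      have h4 : N + 1 ≤ (N + 1) ^ (m + 1) := Nat.le_self_pow (by omega) _
      have h5 : (N + 1) ^ (m + 1) ≤ 2 ^ (2 * m + 1) * (N + 1) ^ (m + 1) :=
        Nat.le_mul_of_pos_left _ (by positivity)
      omega
    have h6 := Nat.le_findGreatest h2 h
    rw [← hN] at h6
    omega
  obtain ⟨p, hp, hNp, hp2⟩ := Nat.exists_prime_lt_and_le_two_mul N (by omega)
  haveI : Fact p.Prime := ⟨hp⟩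
  obtain ⟨A, hA1, hA2, hA3⟩ := exists_set p m hm
  refine ⟨A, ?_, hA3, ?_⟩
  · intro a ha
    refine ⟨(hA1 a ha).1, (hA1 a ha).2.trans ?_⟩
    have h3 : (2 * p) ^ m * p ≤ n := by
      refine le_trans ?_ (show 2 ^ (2 * m + 1) * N ^ (m + 1) ≤ n from hPN)
      calc (2 * p) ^ m * p = 2 ^ m * p ^ (m + 1) := by rw [mul_pow, pow_succ]; ring
        _ ≤ 2 ^ m * (2 * N) ^ (m + 1) := Nat.mul_le_mul_left _ (Nat.pow_le_pow_left hp2 _)
        _ = 2 ^ (2 * m + 1) * N ^ (m + 1) := by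
          rw [mul_pow, ← mul_assoc, ← pow_add]
          congr 2
          omega
    have h4 : (2 * (p : ℤ)) ^ m * (p : ℤ) ≤ n := by exact_mod_cast h3
    have h5 : (0 : ℤ) ≤ (2 * (p : ℤ)) ^ m := by positivity
    linarith
  · rw [hA2]
    have hp1 : 1 ≤ p ^ m := Nat.one_le_pow _ _ hp.pos
    rw [Nat.cast_sub hp1]
    have hpm : (2 : ℝ) ≤ (p : ℝ) ^ m := by
      have h1 : 2 ≤ p ^ m := hp.two_le.trans (Nat.le_self_pow hm.ne' p)
      exact_mod_cast h1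
    have hlow : ((N : ℝ)) ^ m ≤ (p : ℝ) ^ m := by
      have : (N : ℝ) ≤ p := by exact_mod_cast hNp.le
      exact pow_le_pow_left₀ (Nat.cast_nonneg _) this m
    have hnN : (n : ℝ) ≤ 2 ^ (3 * m + 2) * (N : ℝ) ^ (m + 1) := by
      have h1 : n < 2 ^ (2 * m + 1) * (N + 1) ^ (m + 1) := not_le.1 hPN'
      have h2 : 2 ^ (2 * m + 1) * (N + 1) ^ (m + 1) ≤ 2 ^ (2 * m + 1) * (2 * N) ^ (m + 1) :=
        Nat.mul_le_mul_left _ (Nat.pow_le_pow_left (by omega) _)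
      have h3 : 2 ^ (2 * m + 1) * (2 * N) ^ (m + 1) = 2 ^ (3 * m + 2) * N ^ (m + 1) := by
        rw [mul_pow, ← mul_assoc, ← pow_add]
        congr 2
        omega
      have h4 : n ≤ 2 ^ (3 * m + 2) * N ^ (m + 1) := by omega
      exact_mod_cast h4
    have hN0 : (0 : ℝ) ≤ N := Nat.cast_nonneg _
    have hpow : (1 / 2 ^ (3 * m + 2) * (n : ℝ)) ^ α ≤ (N : ℝ) ^ m := by
      have h1 : (1 / 2 ^ (3 * m + 2) * (n : ℝ)) ≤ (N : ℝ) ^ (m + 1) := by
        rw [div_mul_eq_mul_div, one_mul, div_le_iff₀ (by positivity)]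
        linarith
      refine (Real.rpow_le_rpow (by positivity) h1 hα0).trans ?_
      rw [← Real.rpow_natCast, ← Real.rpow_mul hN0, hαm, Real.rpow_natCast]
    rw [mul_assoc, ← Real.mul_rpow (by positivity) (Nat.cast_nonneg _)]
    push_cast
    linarith

end Pool.Agent.Y360.CH
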